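import Pool.Agent.WL76.Main

/-!
# The Weak Win threshold of `n^d` Tic-Tac-Toe is larger than `(log 2 / 4 - o(1)) n^2 / log n`
-/

namespace Pool.Agent.Results.MP_9b84b4_co.WeakWinLower

open Filter Topology Pool.Agent.WW12

/-- `ww(n-line) > (log 2 / 4 - o(1)) n^2 / log n`, and there is no Weak Win in any dimension up to
this bound. -/
theorem result (ε : ℝ) (hε : 0 < ε) : ∃ n₀ : ℕ, ∀ n : ℕ, n₀ ≤ n →
    (Real.log 2 / 4 - ε) * (n : ℝ) ^ 2 / Real.log n < (ww n : ℝ) ∧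
      ∀ d : ℕ, (d : ℝ) ≤ (Real.log 2 / 4 - ε) * (n : ℝ) ^ 2 / Real.log n → ¬ WeakWin n d := by
  obtain ⟨n₁, h1⟩ := Pool.Agent.WL76.not_weakWin ε hε
  obtain ⟨n₂, h2⟩ := eventually_atTop.mp (eventually_weakWin 1 one_pos)
  refine ⟨max n₁ n₂, fun n hn => ?_⟩
  have hn1 := h1 n (le_trans (le_max_left _ _) hn)
  have hn2 := h2 n (le_trans (le_max_right _ _) hn)
  refine ⟨?_, hn1⟩
  have hne : ∃ D, D ∈ {D : ℕ | ∀ d : ℕ, D ≤ d → WeakWin n d} := by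
    refine ⟨⌈(Real.log 2 / 2 + 1) * (n : ℝ) ^ 2 / Real.log n⌉₊, fun d hd => ?_⟩
    exact hn2 d (le_trans (Nat.le_ceil _) (by exact_mod_cast hd))
  have hww : WeakWin n (ww n) :=
    Nat.sInf_mem (s := {D : ℕ | ∀ d : ℕ, D ≤ d → WeakWin n d}) hne (ww n) le_rfl
  by_contra hcon
  exact hn1 (ww n) (not_lt.mp hcon) hww

end Pool.Agent.Results.MP_9b84b4_co.WeakWinLower
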