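import Pool.Agent.WW12.Asymp

/-!
# The Weak Win threshold of `n^d` Tic-Tac-Toe is at most `(log 2 / 2 + o(1)) n^2 / log n`
-/

namespace Pool.Agent.Results.MP_9b84b4_co.WeakWinOrder

open Filter Topology Pool.Agent.WW12

/-- `ww(n-line) ≤ (log 2 / 2 + o(1)) n^2 / log n`. -/
theorem result (ε : ℝ) (hε : 0 < ε) : ∃ n₀ : ℕ, ∀ n : ℕ, n₀ ≤ n →
    (ww n : ℝ) ≤ (Real.log 2 / 2 + ε) * (n : ℝ) ^ 2 / Real.log n ∧
      ∀ d : ℕ, ww n ≤ d → WeakWin n d := by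
  have hlog2 : 0 < Real.log 2 := Real.log_pos (by norm_num)
  have h1 := eventually_weakWin (ε / 2) (by linarith)
  have h2 : ∀ᶠ n : ℕ in atTop, (1 : ℝ) ≤ ε / 2 * ((n : ℝ) ^ 2 / Real.log n) := by
    have h3 : ∀ᶠ n : ℕ in atTop, Real.log n / n < ε / 2 :=
      tendsto_log_div_nat.eventually (gt_mem_nhds (by linarith))
    filter_upwards [h3, eventually_ge_atTop 3] with n h4 h5
    have hn3 : (3 : ℝ) ≤ n := by exact_mod_cast h5
    have hnpos : (0 : ℝ) < n := by linarith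
    have hL : 0 < Real.log n := Real.log_pos (by linarith)
    have h6 : Real.log n < ε / 2 * n := by
      rw [div_lt_iff₀ hnpos] at h4
      exact h4
    rw [← mul_div_assoc, le_div_iff₀ hL]
    nlinarith
  obtain ⟨n₀, hn₀⟩ := eventually_atTop.mp (h1.and (h2.and (eventually_ge_atTop 3)))
  refine ⟨n₀, fun n hn => ?_⟩
  obtain ⟨h3, h4, h5⟩ := hn₀ n hn
  set y : ℝ := (Real.log 2 / 2 + ε / 2) * (n : ℝ) ^ 2 / Real.log n with hy
  have hL : 0 < Real.log n := Real.log_pos (by exact_mod_cast (show 1 < n by omega))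
  have hy0 : 0 ≤ y := by positivity
  have hmem : ⌈y⌉₊ ∈ {D : ℕ | ∀ d : ℕ, D ≤ d → WeakWin n d} := by
    intro d hd
    exact h3 d (le_trans (Nat.le_ceil y) (by exact_mod_cast hd))
  refine ⟨?_, ?_⟩
  · have h6 : ww n ≤ ⌈y⌉₊ := Nat.sInf_le hmem
    have h7 : (ww n : ℝ) ≤ (⌈y⌉₊ : ℝ) := by exact_mod_cast h6
    have h8 := Nat.ceil_lt_add_one hy0
    have h9 : (Real.log 2 / 2 + ε) * (n : ℝ) ^ 2 / Real.log n =
        y + ε / 2 * ((n : ℝ) ^ 2 / Real.log n) := by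
      rw [hy]; ring
    rw [h9]
    linarith
  · exact Nat.sInf_mem (s := {D : ℕ | ∀ d : ℕ, D ≤ d → WeakWin n d}) ⟨_, hmem⟩

end Pool.Agent.Results.MP_9b84b4_co.WeakWinOrder
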